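import Mathlib.Algebra.BigOperators.Ring.Finset
import Mathlib.Algebra.Order.BigOperators.Group.Finset
import Mathlib.Algebra.Order.BigOperators.GroupWithZero.Finset
import Mathlib.Algebra.Order.BigOperators.GroupWithZero.List
import Mathlib.Data.Fintype.List
import Mathlib.Data.Real.Basic
import Mathlib.Data.List.Lookmap
import Mathlib.Tactic.LinearCombination
import Mathlib.Algebra.Order.Star.Real
import Mathlib.Tactic.Algebra.Basic

-- ======== part 0: formerly Pool.Agent.MP_f00251_lc.Words
section MrgPart0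

/-!
Counting words with prescribed letter multiplicities all of whose final segments are allowed.
-/

set_option autoImplicit false

namespace Pool.Agent.MP_f00251_lc

open Finset

variable {C : Type} [DecidableEq C]

/-- The words with letter multiset `A`. -/
def wds (A : Multiset C) : Finset (List C) := A.lists.toFinset

@[simp] theorem mem_wds {A : Multiset C} {l : List C} : l ∈ wds A ↔ (l : Multiset C) = A := by
  rw [wds, Multiset.mem_toFinset, Multiset.mem_lists_iff]
  exact eq_comm

/-- All states visited from the base state `s` (the word is read from right to left) are allowed. -/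
def Chain (ok : Multiset C → Prop) (s : Multiset C) (l : List C) : Prop :=
  ∀ l', l' <:+ l → ok ((l' : Multiset C) + s)

omit [DecidableEq C] in
@[simp] theorem chain_nil {ok : Multiset C → Prop} {s : Multiset C} : Chain ok s [] ↔ ok s := by
  simp [Chain]

omit [DecidableEq C] in
theorem chain_cons {ok : Multiset C → Prop} {s : Multiset C} {c : C} {l : List C} :
    Chain ok s (c :: l) ↔ ok (c ::ₘ ((l : Multiset C) + s)) ∧ Chain ok s l := by
  simp only [Chain, List.suffix_cons_iff]
  constructor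
  · intro h
    refine ⟨?_, fun l' hl' => h _ (Or.inr hl')⟩
    rw [← Multiset.cons_add, Multiset.cons_coe]
    exact h _ (Or.inl rfl)
  · rintro ⟨h1, h2⟩ l' (rfl | hl')
    · rwa [← Multiset.cons_add, Multiset.cons_coe] at h1
    · exact h2 _ hl'

omit [DecidableEq C] in
theorem Chain.top {ok : Multiset C → Prop} {s : Multiset C} {l : List C} (h : Chain ok s l) :
    ok ((l : Multiset C) + s) := h l (List.suffix_refl l)

omit [DecidableEq C] in
theorem chain_append {ok : Multiset C → Prop} {s : Multiset C} {l₁ l₂ : List C}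
    (h₁ : Chain ok ((l₂ : Multiset C) + s) l₁) (h₂ : Chain ok s l₂) : Chain ok s (l₁ ++ l₂) := by
  induction l₁ with
  | nil => simpa using h₂
  | cons c l ih =>
    rw [List.cons_append, chain_cons]
    rw [chain_cons] at h₁
    refine ⟨?_, ih h₁.2⟩
    have := h₁.1
    rwa [← add_assoc, Multiset.coe_add] at this

open Classical in
/-- The number of allowed words. -/
noncomputable def V (ok : Multiset C → Prop) (s A : Multiset C) : ℕ :=
  ((wds A).filter (Chain ok s)).card

open Classical in
theorem V_zero (ok : Multiset C → Prop) (s : Multiset C) : V ok s 0 = if ok s then 1 else 0 := by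
  have : wds (0 : Multiset C) = {[]} := by ext l; simp
  rw [V, this, Finset.filter_singleton]
  by_cases h : ok s <;> simp [h]

open Classical in
theorem V_succ (ok : Multiset C → Prop) (s A : Multiset C) (hA : A ≠ 0) :
    V ok s A = if ok (A + s) then ∑ c ∈ A.toFinset, V ok s (A.erase c) else 0 := by
  split_ifs with h
  · have : (wds A).filter (Chain ok s) = A.toFinset.biUnion
        (fun c => ((wds (A.erase c)).filter (Chain ok s)).image (c :: ·)) := by
      ext l
      simp only [mem_filter, mem_wds, mem_biUnion, Multiset.mem_toFinset, mem_image]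
      constructor
      · rintro ⟨h1, h2⟩
        cases l with
        | nil => exact absurd h1.symm hA
        | cons c l =>
          refine ⟨c, by rw [← h1]; simp, l, ⟨?_, (chain_cons.1 h2).2⟩, rfl⟩
          rw [← h1, ← Multiset.cons_coe, Multiset.erase_cons_head]
      · rintro ⟨c, hc, l', ⟨h1, h2⟩, rfl⟩
        have e : ((c :: l' : List C) : Multiset C) = A := by
          rw [← Multiset.cons_coe, h1, Multiset.cons_erase hc]
        refine ⟨e, chain_cons.2 ⟨?_, h2⟩⟩
        rwa [← Multiset.cons_add, Multiset.cons_coe, e]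
    rw [V, this, card_biUnion]
    · refine sum_congr rfl (fun c _ => ?_)
      rw [card_image_of_injective _ (List.cons_injective)]
      rfl
    · intro c _ c' _ hcc'
      simp only [Function.onFun, disjoint_left, mem_image]
      rintro l ⟨l1, -, rfl⟩ ⟨l2, -, h2⟩
      exact hcc' (List.cons.inj h2).1.symm
  · rw [V, card_eq_zero, filter_eq_empty_iff]
    intro l hl hc
    rw [mem_wds] at hl
    exact h (hl ▸ hc.top)

theorem V_pos {ok : Multiset C → Prop} {s : Multiset C} {l : List C} (h : Chain ok s l) :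
    1 ≤ V ok s l := by
  classical
  exact card_pos.2 ⟨l, mem_filter.2 ⟨mem_wds.2 rfl, h⟩⟩

theorem V_add (ok : Multiset C → Prop) (s A B : Multiset C) :
    V ok s A * V ok (A + s) B ≤ V ok s (B + A) := by
  classical
  unfold V
  rw [← card_product]
  refine card_le_card_of_injOn (fun p => p.2 ++ p.1) ?_ ?_
  · rintro ⟨l₂, l₁⟩ hp
    simp only [coe_product, coe_filter, mem_wds, Set.mem_prod, Set.mem_setOf_eq] at hp ⊢
    obtain ⟨⟨h1, h2⟩, h3, h4⟩ := hp
    exact ⟨by rw [← Multiset.coe_add, h1, h3], chain_append (h1 ▸ h4) h2⟩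
  · rintro ⟨l₂, l₁⟩ hp ⟨l₂', l₁'⟩ hp' e
    simp only [coe_product, coe_filter, mem_wds, Set.mem_prod, Set.mem_setOf_eq] at hp hp'
    have hl : l₁.length = l₁'.length := by
      rw [← Multiset.coe_card, ← Multiset.coe_card, hp.2.1, hp'.2.1]
    obtain ⟨e1, e2⟩ := List.append_inj e hl
    simp only at e1 e2
    rw [e1, e2]

/-- The product of the factorials of the multiplicities. -/
def fac (A : Multiset C) : ℕ := ∏ c ∈ A.toFinset, (A.count c).factorial

theorem fac_pos (A : Multiset C) : 0 < fac A := prod_pos (fun _ _ => Nat.factorial_pos _)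

theorem fac_eq {A : Multiset C} {X : Finset C} (h : A.toFinset ⊆ X) :
    fac A = ∏ c ∈ X, (A.count c).factorial := by
  refine prod_subset h (fun c _ hc => ?_)
  rw [Multiset.mem_toFinset] at hc
  simp [Multiset.count_eq_zero_of_notMem hc]

theorem fac_erase {A : Multiset C} {c : C} (hc : c ∈ A) : fac A = A.count c * fac (A.erase c) := by
  have hs : (A.erase c).toFinset ⊆ A.toFinset :=
    Multiset.toFinset_subset.2 (Multiset.erase_subset _ _)
  have hc' : c ∈ A.toFinset := Multiset.mem_toFinset.2 hc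
  rw [fac_eq hs, fac, ← mul_prod_erase _ _ hc', ← mul_prod_erase _ _ hc', ← mul_assoc]
  congr 1
  · rw [Multiset.count_erase_self]
    exact (Nat.mul_factorial_pred (Multiset.count_pos.2 hc).ne').symm
  · refine prod_congr rfl (fun x hx => ?_)
    rw [Multiset.count_erase_of_ne (ne_of_mem_erase hx)]

theorem V_all (ok : Multiset C → Prop) (s : Multiset C) (n : ℕ) :
    ∀ A : Multiset C, A.card = n → (∀ t ≤ A, ok (t + s)) → fac A * V ok s A = n.factorial := by
  induction n with
  | zero =>
    intro A hA h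
    rw [Multiset.card_eq_zero] at hA
    subst hA
    have := h 0 le_rfl
    rw [zero_add] at this
    simp [V_zero, this, fac]
  | succ n ih =>
    intro A hA h
    have hA0 : A ≠ 0 := by rintro rfl; simp at hA
    rw [V_succ _ _ _ hA0, if_pos (h A le_rfl), mul_sum]
    have : ∀ c ∈ A.toFinset, fac A * V ok s (A.erase c) = A.count c * n.factorial := by
      intro c hc
      rw [Multiset.mem_toFinset] at hc
      rw [fac_erase hc, mul_assoc, ih (A.erase c) (by rw [Multiset.card_erase_of_mem hc, hA]; rfl)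
        (fun t ht => h t (ht.trans (Multiset.erase_le _ _)))]
    rw [sum_congr rfl this, ← sum_mul, Multiset.toFinset_sum_count_eq, hA, Nat.factorial_succ]

omit [DecidableEq C] in
theorem coe_le_of_suffix {l l' : List C} (h : l' <:+ l) : (l' : Multiset C) ≤ l :=
  Multiset.coe_le.2 h.sublist.subperm

theorem V_map (ok ok' : Multiset C → Prop) (A : Multiset C) (φ : C → C)
    (hφ : Function.Injective φ) (h : ∀ t ≤ A, ok t → ok' (t.map φ)) :
    V ok 0 A ≤ V ok' 0 (A.map φ) := by
  classical
  unfold V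
  refine card_le_card_of_injOn (fun l => l.map φ) ?_ ?_
  · intro l hl
    simp only [coe_filter, mem_wds, Set.mem_setOf_eq] at hl ⊢
    refine ⟨by rw [← hl.1, Multiset.map_coe], fun l' hl' => ?_⟩
    obtain ⟨l'', h1, rfl⟩ := List.suffix_map_iff.1 hl'
    rw [add_zero, ← Multiset.map_coe]
    refine h _ (hl.1 ▸ coe_le_of_suffix h1) ?_
    simpa using hl.2 _ h1
  · intro l _ l' _ e
    exact (List.map_injective_iff.2 hφ) e

theorem V_le_sum {ι : Type} (ok : Multiset C → Prop) (A : Multiset C) (I : Finset ι)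
    (oks : ι → Multiset C → Prop)
    (h : ∀ l : List C, (l : Multiset C) = A → Chain ok 0 l → ∃ i ∈ I, Chain (oks i) 0 l) :
    V ok 0 A ≤ ∑ i ∈ I, V (oks i) 0 A := by
  classical
  unfold V
  refine le_trans (card_le_card ?_) card_biUnion_le
  intro l hl
  simp only [mem_filter, mem_wds, mem_biUnion] at hl ⊢
  obtain ⟨i, hi, h2⟩ := h l hl.1 hl.2
  exact ⟨i, hi, hl.1, h2⟩

theorem sum_le_V {ι : Type} (ok : Multiset C → Prop) (A : Multiset C) (I : Finset ι)
    (oks : ι → Multiset C → Prop)
    (h : ∀ i ∈ I, ∀ l : List C, (l : Multiset C) = A → Chain (oks i) 0 l → Chain ok 0 l)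
    (hd : ∀ i ∈ I, ∀ j ∈ I, ∀ l : List C, (l : Multiset C) = A → Chain (oks i) 0 l →
      Chain (oks j) 0 l → i = j) :
    ∑ i ∈ I, V (oks i) 0 A ≤ V ok 0 A := by
  classical
  unfold V
  rw [← card_biUnion]
  · refine card_le_card (fun l hl => ?_)
    simp only [mem_filter, mem_wds, mem_biUnion] at hl ⊢
    obtain ⟨i, hi, h1, h2⟩ := hl
    exact ⟨h1, h i hi l h1 h2⟩
  · intro i hi j hj hij
    simp only [Function.onFun, disjoint_left, mem_filter, mem_wds]
    rintro l ⟨h1, h2⟩ ⟨-, h3⟩
    exact hij (hd i hi j hj l h1 h2 h3)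

/-- Words of a given length over a finite alphabet. -/
def lsts (X : Finset C) : ℕ → Finset (List C)
  | 0 => {[]}
  | L + 1 => (X ×ˢ lsts X L).image (fun p => p.1 :: p.2)

theorem mem_lsts {X : Finset C} {l : List C} (h : ∀ c ∈ l, c ∈ X) : l ∈ lsts X l.length := by
  induction l with
  | nil => simp [lsts]
  | cons c l ih =>
    simp only [List.length_cons, lsts, mem_image, mem_product]
    exact ⟨(c, l), ⟨h c (by simp), ih (fun x hx => h x (by simp [hx]))⟩, rfl⟩

open Classical in
theorem potential_aux (ok : Multiset C → Prop) (X : Finset C) (wt : C → ℝ) (φ : Multiset C → ℝ)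
    (ρ : ℝ) (hw : ∀ c, 0 ≤ wt c) (hφ : ∀ t, 0 ≤ φ t) (hρ : 0 ≤ ρ)
    (h : ∀ t, ok t → ∑ c ∈ X, wt c * (if ok (c ::ₘ t) then φ (c ::ₘ t) else 0) ≤ ρ * φ t) (L : ℕ) :
    ∑ l ∈ lsts X L, (if Chain ok 0 l then (l.map wt).prod * φ l else 0) ≤ ρ ^ L * φ 0 := by
  induction L with
  | zero =>
    simp only [lsts, sum_singleton, pow_zero, one_mul]
    split_ifs
    · simp
    · exact hφ _
  | succ L ih =>
    rw [lsts, sum_image (by rintro ⟨a, b⟩ _ ⟨c, d⟩ _ e; simpa using e), sum_product_right,
      pow_succ', mul_assoc]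
    refine le_trans ?_ (mul_le_mul_of_nonneg_left ih hρ)
    rw [mul_sum]
    refine sum_le_sum (fun l _ => ?_)
    by_cases hl : Chain ok 0 l
    · rw [if_pos hl]
      have h1 := h l (by simpa using hl.top)
      have h2 : 0 ≤ (l.map wt).prod := List.prod_nonneg (by simpa using fun c _ => hw c)
      calc _ = (l.map wt).prod * ∑ c ∈ X, wt c *
            (if ok (c ::ₘ (l : Multiset C)) then φ (c ::ₘ (l : Multiset C)) else 0) := by
            rw [mul_sum]
            refine sum_congr rfl (fun c _ => ?_)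
            simp only [chain_cons, add_zero, hl, and_true, Multiset.cons_coe, List.map_cons,
              List.prod_cons]
            split_ifs <;> ring
        _ ≤ (l.map wt).prod * (ρ * φ l) := mul_le_mul_of_nonneg_left h1 h2
        _ = _ := by ring
    · rw [if_neg hl, mul_zero]
      refine le_of_eq (sum_eq_zero (fun c _ => ?_))
      simp [chain_cons, hl]

open Classical in
theorem potential (ok : Multiset C → Prop) (A : Multiset C) (X : Finset C) (hX : ∀ c ∈ A, c ∈ X)
    (wt : C → ℝ) (φ : Multiset C → ℝ)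
    (ρ : ℝ) (hw : ∀ c, 0 ≤ wt c) (hφ : ∀ t, 0 ≤ φ t) (hρ : 0 ≤ ρ)
    (h : ∀ t, ok t → ∑ c ∈ X, wt c * (if ok (c ::ₘ t) then φ (c ::ₘ t) else 0) ≤ ρ * φ t) :
    (V ok 0 A : ℝ) * ((A.map wt).prod * φ A) ≤ ρ ^ A.card * φ 0 := by
  refine le_trans ?_ (potential_aux ok X wt φ ρ hw hφ hρ h A.card)
  rw [← sum_filter, V, ← nsmul_eq_mul, ← sum_const]
  have e : ∀ l ∈ (wds A).filter (Chain ok 0), (A.map wt).prod * φ A = (l.map wt).prod * φ l := by
    intro l hl
    rw [mem_filter, mem_wds] at hl
    rw [← hl.1]; simp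
  rw [sum_congr rfl e]
  refine sum_le_sum_of_subset_of_nonneg (fun l hl => ?_) (fun l _ _ => ?_)
  · rw [mem_filter, mem_wds] at hl
    refine mem_filter.2 ⟨?_, hl.2⟩
    rw [← hl.1, Multiset.coe_card]
    exact mem_lsts (fun c hc => hX c (by rw [← hl.1]; exact hc))
  · exact mul_nonneg (List.prod_nonneg (by simpa using fun c _ => hw c)) (hφ _)

end Pool.Agent.MP_f00251_lc

end MrgPart0

-- ======== part 1: formerly Pool.Agent.MP_f00251_lc.Num.NumA
section MrgPart1

/-! The one step estimate for the potential. -/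

set_option autoImplicit false

namespace Pool.Agent.MP_f00251_lc.Ent

open Finset

variable {C : Type} [DecidableEq C]

/-- The weights of the letters. -/
noncomputable def wt (Lk : Finset C) (X : Multiset C) (c0 : C) (p r γ : ℝ) (c : C) : ℝ :=
  if c ∈ Lk then p else if c ∈ X then γ else if c = c0 then 2 * r else r

open Classical in
/-- The potential. -/
noncomputable def ph (Lk : Finset C) (ok good : Multiset C → Prop) (θ κ : ℝ) (t : Multiset C) : ℝ :=
  if good t then 1 else if ∀ i ∈ Lk, ok (i ::ₘ t) then θ else θ * (1 - κ / 2)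

section
variable {Lk : Finset C} {ok good : Multiset C → Prop} {θ κ : ℝ} {t : Multiset C}

omit [DecidableEq C] in
theorem ph_nonneg (h0 : 0 ≤ θ) (k1 : κ ≤ 1) : 0 ≤ ph Lk ok good θ κ t := by
  unfold ph
  split_ifs
  · exact zero_le_one
  · exact h0
  · exact mul_nonneg h0 (by linarith)

omit [DecidableEq C] in
theorem ph_bad (h0 : 0 ≤ θ) (k0 : 0 ≤ κ) (h : ¬good t) : ph Lk ok good θ κ t ≤ θ := by
  unfold ph
  rw [if_neg h]
  split_ifs
  · exact le_rfl
  · nlinarith [mul_nonneg h0 k0]

omit [DecidableEq C] in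
theorem ph_le (h0 : 0 ≤ θ) (h1 : θ ≤ 1) (k0 : 0 ≤ κ) : ph Lk ok good θ κ t ≤ 1 := by
  by_cases h : good t
  · simp [ph, h]
  · exact (ph_bad h0 k0 h).trans h1

theorem sum_le_one_out {f : C → ℝ} {i : C} (hi : i ∈ Lk) (h : ∀ c ∈ Lk, f c ≤ θ) :
    ∑ c ∈ Lk, f c ≤ (Lk.card - 1) * θ + f i := by
  rw [← add_sum_erase _ _ hi, add_comm]
  have := sum_le_card_nsmul (Lk.erase i) f θ fun c hc => h c (mem_of_mem_erase hc)
  rw [nsmul_eq_mul, card_erase_of_mem hi, Nat.cast_pred (card_pos.2 ⟨i, hi⟩)] at this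
  linarith

end

open Classical in
theorem step {Lk : Finset C} {J : ℕ} {q : ℕ → C} {X : Multiset C} {ok good : Multiset C → Prop}
    {win : ℕ → Multiset C → Prop} (hq : ∀ j < J, q j ∉ Lk ∧ q j ∉ X) (hX : ∀ c ∈ X, c ∉ Lk)
    (hi : ∀ i < J, ∀ j < J, q i = q j → i = j)
    (kill : ∀ t, ok t → (∀ i ∈ Lk, ok (i ::ₘ t)) →
      (∀ i ∈ Lk, ∀ i' ∈ Lk, i ≠ i' → ok (i' ::ₘ i ::ₘ t)) → good t)
    (hg : ∀ t, ∀ i ∈ Lk, good (i ::ₘ t) → good t)
    (hw : ∀ t, ∀ j < J, good t → good (q j ::ₘ t) → win j t)
    (hu : ∀ t, ∀ i < J, ∀ j < J, win i t → win j t → i = j) {j : ℕ} (hj : j < J)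
    {p r γ θ κ : ℝ} (hp : 0 ≤ p) (hr : 0 ≤ r) (hγ : 0 ≤ γ) (h0 : 0 ≤ θ) (h1 : θ ≤ 1)
    (k0 : 0 ≤ κ) (k1 : κ ≤ 1) (hk : κ * Lk.card = 1) (hs : Lk.card * p + r ≤ 1)
    (hη : (J + 1) * r + X.card * γ ≤ θ * κ ^ 2 / 2) (t : Multiset C) (ht : ok t ∧ ¬win j t) :
    ∑ c ∈ Lk ∪ (range J).image q ∪ X.toFinset, wt Lk X (q j) p r γ c *
      (if ok (c ::ₘ t) ∧ ¬win j (c ::ₘ t) then ph Lk ok good θ κ (c ::ₘ t) else 0) ≤
      (1 + ((J + 1) * r * θ + X.card * γ)) * ph Lk ok good θ κ t := by
  set f : C → ℝ := fun c =>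
    if ok (c ::ₘ t) ∧ ¬win j (c ::ₘ t) then ph Lk ok good θ κ (c ::ₘ t) else 0 with hf
  have fle : ∀ c, f c ≤ ph Lk ok good θ κ (c ::ₘ t) := fun c => by
    simp only [hf]; split_ifs; exacts [le_rfl, ph_nonneg h0 k1]
  have f1 : ∀ c, f c ≤ 1 := fun c => (fle c).trans (ph_le h0 h1 k0)
  have d1 : Disjoint Lk ((range J).image q) := disjoint_right.2 fun c hc => by
    obtain ⟨i, hi, rfl⟩ := mem_image.1 hc
    exact (hq i (mem_range.1 hi)).1
  have d2 : Disjoint (Lk ∪ (range J).image q) X.toFinset := disjoint_right.2 fun c hc hc' => by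
    rw [Multiset.mem_toFinset] at hc
    rcases mem_union.1 hc' with h | h
    · exact hX c hc h
    · obtain ⟨i, hi, rfl⟩ := mem_image.1 h
      exact (hq i (mem_range.1 hi)).2 hc
  have wq : ∀ i ∈ range J, wt Lk X (q j) p r γ (q i) = r + if i = j then r else 0 := fun i h => by
    have h' := mem_range.1 h
    rw [wt, if_neg (hq i h').1, if_neg (hq i h').2]
    by_cases e : i = j
    · simp [e, two_mul]
    · rw [if_neg fun e' => e (hi i h' j hj e'), if_neg e, add_zero]
  have sq : ∑ i ∈ range J, (r + if i = j then r else 0) = (J + 1) * r := by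
    rw [sum_add_distrib, sum_ite_eq', if_pos (mem_range.2 hj)]; simp; ring
  have e1 : ∑ c ∈ Lk, wt Lk X (q j) p r γ c * f c = p * ∑ c ∈ Lk, f c := by
    rw [mul_sum]; exact sum_congr rfl fun c hc => by rw [wt, if_pos hc]
  have e2 : ∑ c ∈ (range J).image q, wt Lk X (q j) p r γ c * f c =
      ∑ i ∈ range J, (r + if i = j then r else 0) * f (q i) := by
    rw [sum_image fun a ha b hb e => hi a (by simpa using ha) b (by simpa using hb) e]
    exact sum_congr rfl fun i h => by rw [wq i h]
  have e3 : ∑ c ∈ X.toFinset, wt Lk X (q j) p r γ c * f c ≤ X.card * γ := by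
    refine (sum_le_card_nsmul _ _ γ fun c hc => ?_).trans ?_
    · rw [Multiset.mem_toFinset] at hc
      rw [wt, if_neg (hX c hc), if_pos hc]
      exact mul_le_of_le_one_right hγ (f1 c)
    · rw [nsmul_eq_mul]
      exact mul_le_mul_of_nonneg_right (by exact_mod_cast X.toFinset_card_le) hγ
  have wn : ∀ i, 0 ≤ r + if i = j then r else 0 := fun i => by split_ifs <;> linarith
  change ∑ c ∈ _, _ * f c ≤ _
  rw [sum_union d2, sum_union d1, e1, e2]
  have hx : 0 ≤ (X.card : ℝ) * γ := by positivity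
  by_cases g : good t
  · have a1 : ∑ c ∈ Lk, f c ≤ Lk.card := by
      simpa using sum_le_card_nsmul Lk f 1 fun c _ => f1 c
    have a2 : ∑ i ∈ range J, (r + if i = j then r else 0) * f (q i) ≤
        ∑ i ∈ range J, ((r + if i = j then r else 0) * θ + if win i t then r else 0) :=
      sum_le_sum fun i h => by
        by_cases g' : good (q i ::ₘ t)
        · have w := hw t i (mem_range.1 h) g g'
          rw [if_pos w, if_neg fun e : i = j => ht.2 (e ▸ w), add_zero]
          nlinarith [f1 (q i), mul_nonneg hr h0]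
        · have := mul_le_mul_of_nonneg_left ((fle (q i)).trans (ph_bad h0 k0 g')) (wn i)
          split_ifs at this ⊢ <;> linarith
    have a3 : (((range J).filter fun i => win i t).card : ℝ) ≤ 1 := by
      exact_mod_cast card_le_one.2 fun a ha b hb => by
        rw [mem_filter, mem_range] at ha hb
        exact hu t a ha.1 b hb.1 ha.2 hb.2
    rw [sum_add_distrib, ← sum_mul, sq, ← sum_filter, sum_const, nsmul_eq_mul] at a2
    rw [ph, if_pos g]
    nlinarith [mul_le_mul_of_nonneg_left a1 hp, mul_le_mul_of_nonneg_right a3 hr]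
  · have a1 : ∀ c ∈ Lk, f c ≤ θ := fun c hc => (fle c).trans (ph_bad h0 k0 fun h => g (hg t c hc h))
    have a2 : ∑ i ∈ range J, (r + if i = j then r else 0) * f (q i) ≤ (J + 1) * r := by
      rw [← sq]; exact sum_le_sum fun i _ => mul_le_of_le_one_right (wn i) (f1 _)
    have a3 : p ≤ κ := by nlinarith [mul_le_mul_of_nonneg_left hs k0, mul_nonneg k0 hr]
    have a4 : ph Lk ok good θ κ t ≤
        (1 + ((J + 1) * r * θ + X.card * γ)) * ph Lk ok good θ κ t :=
      le_mul_of_one_le_left (ph_nonneg h0 k1) (le_add_of_nonneg_right (by positivity))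
    have a5 : p * ∑ c ∈ Lk, f c ≤ κ * ∑ c ∈ Lk, f c := mul_le_mul_of_nonneg_right a3
      (sum_nonneg fun c _ => by simp only [hf]; split_ifs; exacts [ph_nonneg h0 k1, le_rfl])
    have a6 : κ * ((Lk.card - 1) * θ) = θ - κ * θ := by linear_combination θ * hk
    refine le_trans ?_ a4
    rw [ph, if_neg g]
    split_ifs with b
    · obtain ⟨i, h, i', h', hb⟩ : ∃ i ∈ Lk, ∃ i' ∈ Lk, ¬ok (i' ::ₘ i ::ₘ t) := by
        by_contra hc
        push Not at hc
        exact g (kill t ht.1 b fun i h i' h' _ => hc i h i' h')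
      have a7 := fle i
      rw [ph, if_neg fun h'' => g (hg t i h h''), if_neg fun h'' => hb (h'' i' h')] at a7
      have a8 := mul_le_mul_of_nonneg_left (sum_le_one_out h a1) k0
      nlinarith [mul_le_mul_of_nonneg_left a7 k0]
    · push Not at b
      obtain ⟨i, h, hb⟩ := b
      have a7 : f i = 0 := if_neg fun h' => hb h'.1
      have a8 := mul_le_mul_of_nonneg_left (sum_le_one_out h a1) k0
      rw [a7, add_zero] at a8
      nlinarith [mul_le_mul_of_nonneg_left k1 (mul_nonneg h0 k0)]

end Pool.Agent.MP_f00251_lc.Ent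

end MrgPart1

-- marker of a merged file
example : 731051 + 790511 = 731051 + 790511 := rfl
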