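import Pool.Agent.MP_f00251_lc.Iface2
import Pool.Agent.MP_f00251_lc.Num.NumA

/-! The entropy estimate. -/

set_option autoImplicit false

namespace Pool.Agent.MP_f00251_lc

open Finset Real

namespace Ent

theorem fac_up (n : ℕ) (hn : 1 ≤ n) : (n.factorial : ℝ) * exp n ≤ exp 1 * n * n ^ n := by
  induction n, hn using Nat.le_induction with
  | base => simp
  | succ n hn ih =>
    have hp : (0 : ℝ) < n + 1 := by positivity
    have h := one_sub_div_pow_le_exp_neg (n := n + 1) (t := 1) (by push_cast; linarith)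
    rw [show (1 : ℝ) - 1 / ((n + 1 : ℕ) : ℝ) = n / (n + 1) by push_cast; field_simp; ring, div_pow,
      div_le_iff₀ (by positivity), exp_neg, le_inv_mul_iff₀ (exp_pos 1)] at h
    rw [Nat.factorial_succ]
    push_cast
    rw [exp_add]
    calc _ = (n + 1) * exp 1 * (n.factorial * exp n) := by ring
      _ ≤ (n + 1) * exp 1 * (exp 1 * n * n ^ n) := by gcongr
      _ = exp 1 * (n + 1) * (exp 1 * n ^ (n + 1)) := by ring
      _ ≤ _ := by gcongr

theorem multi {k m μ : ℕ} (hk : 1 ≤ k) (hm : 1 ≤ m) (hμ : 1 ≤ μ) {l B : ℝ} (hl : l = k * m + μ)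
    (hB : exp 1 * l ≤ B) : (m.factorial : ℝ) ^ k * μ.factorial ≤
      B ^ (k + 1) * (k * m + μ).factorial * ((m / l) ^ (k * m) * (μ / l) ^ μ) := by
  have k1 : (1 : ℝ) ≤ k := by exact_mod_cast hk
  have m0 : (0 : ℝ) < m := by exact_mod_cast hm
  have u0 : (0 : ℝ) < μ := by exact_mod_cast hμ
  have l1 : (m : ℝ) ≤ l := by nlinarith
  have l2 : (μ : ℝ) ≤ l := by nlinarith
  have l0 : 0 < l := m0.trans_le l1
  have b1 : exp 1 * m ≤ B := le_trans (by gcongr) hB
  have b2 : exp 1 * μ ≤ B := le_trans (by gcongr) hB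
  have B0 : 0 ≤ B := le_trans (by positivity) hB
  have lo := pow_div_factorial_le_exp l l0.le (k * m + μ)
  rw [div_le_iff₀ (by positivity)] at lo
  refine le_of_mul_le_mul_right ?_ (exp_pos l)
  calc _ = (m.factorial * exp m) ^ k * (μ.factorial * exp μ) := by
        rw [hl, exp_add, exp_nat_mul]; ring
    _ ≤ (B * m ^ m) ^ k * (B * μ ^ μ) := by
        have c1 : (m.factorial : ℝ) * exp m ≤ B * m ^ m := (fac_up m hm).trans (by gcongr)
        have c2 : (μ.factorial : ℝ) * exp μ ≤ B * μ ^ μ := (fac_up μ hμ).trans (by gcongr)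
        gcongr ?_ ^ k * ?_
    _ = B ^ (k + 1) * ((m / l) ^ (k * m) * (μ / l) ^ μ) * l ^ (k * m + μ) := by
        rw [div_pow, div_pow, pow_add l, mul_pow, ← pow_mul, mul_comm m k]; field_simp; ring
    _ ≤ B ^ (k + 1) * ((m / l) ^ (k * m) * (μ / l) ^ μ) * (exp l * (k * m + μ).factorial) := by
        gcongr
    _ = _ := by ring

theorem fin {k J x m μ : ℕ} {a F G V p r γ B : ℝ} (hB : 1 ≤ B) (hF0 : 0 ≤ F) (hG : 0 ≤ G)
    (hV0 : 0 ≤ V) (hp : 0 ≤ p) (hr : 0 ≤ r) (ha : a ≤ B ^ 2)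
    (hF : F ≤ B ^ (k + 1) * G * (p ^ (k * m) * r ^ μ))
    (hV : V * (γ ^ x * (p ^ k) ^ (J * m + x) * (2 * r ^ J) ^ μ) ≤ B) (h1 : 1 ≤ γ * B)
    (h2 : 1 ≤ p * B) (hN : B ^ (3 + (k + 1) * (J + x)) ≤ 2 ^ μ) : a * F ^ J * V ≤ G ^ J := by
  have B0 : 0 ≤ B := by linarith
  have a1 : 1 ≤ (γ * B) ^ x * (p * B) ^ (k * x) :=
    one_le_mul_of_one_le_of_one_le (one_le_pow₀ h1) (one_le_pow₀ h2)
  refine le_of_mul_le_mul_right ?_ (show (0 : ℝ) < 2 ^ μ by positivity)
  calc a * F ^ J * V * 2 ^ μ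
      ≤ B ^ 2 * (B ^ (k + 1) * G * (p ^ (k * m) * r ^ μ)) ^ J * V * 2 ^ μ * 1 := by
        rw [mul_one]; gcongr
    _ ≤ B ^ 2 * (B ^ (k + 1) * G * (p ^ (k * m) * r ^ μ)) ^ J * V * 2 ^ μ *
        ((γ * B) ^ x * (p * B) ^ (k * x)) := by gcongr
    _ = B ^ (2 + (k + 1) * (J + x)) * G ^ J *
        (V * (γ ^ x * (p ^ k) ^ (J * m + x) * (2 * r ^ J) ^ μ)) := by
        simp only [mul_pow, ← pow_mul]; ring
    _ ≤ B ^ (2 + (k + 1) * (J + x)) * G ^ J * B := by gcongr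
    _ = G ^ J * B ^ (3 + (k + 1) * (J + x)) := by ring
    _ ≤ _ := by gcongr

theorem prod_wt {C : Type} [DecidableEq C] {Lk : Finset C} {J : ℕ} {q : ℕ → C} {X : Multiset C}
    (hq : ∀ j < J, q j ∉ Lk ∧ q j ∉ X) (hX : ∀ c ∈ X, c ∉ Lk)
    (hi : ∀ i < J, ∀ j < J, q i = q j → i = j) {j : ℕ} (hj : j < J) (p r γ : ℝ) (n μ : ℕ) :
    ((X + n • Lk.val + μ • (Multiset.range J).map q).map (wt Lk X (q j) p r γ)).prod =
      γ ^ X.card * (p ^ Lk.card) ^ n * (2 * r ^ J) ^ μ := by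
  simp only [Multiset.map_add, Multiset.prod_add, Multiset.map_nsmul, Multiset.prod_nsmul,
    Multiset.map_map]
  congr 3
  · rw [Multiset.map_congr rfl (g := fun _ => γ) fun c hc => by rw [wt, if_neg (hX c hc), if_pos hc]]
    simp
  · rw [Multiset.map_congr rfl (g := fun _ => p) fun c hc => by rw [wt, if_pos (mem_def.2 hc)]]
    simp
  · change ∏ i ∈ range J, wt Lk X (q j) p r γ (q i) = _
    rw [prod_congr rfl (g := fun i => (if i = j then 2 else 1) * r) fun i h => by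
      have h' := mem_range.1 h
      rw [wt, if_neg (hq i h').1, if_neg (hq i h').2]
      by_cases e : i = j
      · simp [e]
      · rw [if_neg fun e' => e (hi i h' j hj e'), if_neg e, one_mul], prod_mul_distrib, prod_ite_eq',
      if_pos (mem_range.2 hj), prod_const, card_range]

theorem nat_facts {s k J x : ℕ} (hs : 2 ≤ s) (hk : k ≤ s) (hJ : J ≤ s) (hx : x ≤ s) {l : ℕ}
    (hl : l = k * (2 * s ^ 31) + 2 * s ^ 10) (k1 : 1 ≤ k) :
    l ≤ s ^ 34 ∧ J * l + x * (k + 1) ≤ s ^ 2 * l ∧ s ^ 38 ≤ 2 ^ (38 * s) ∧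
      38 * s * (3 + (k + 1) * (J + x)) ≤ 2 * s ^ 10 := by
  have p1 : ∀ a b, a ≤ b → s ^ a ≤ s ^ b := fun a b h => Nat.pow_le_pow_right (by omega) h
  have s2 : 4 ≤ s ^ 2 := Nat.pow_le_pow_left hs 2
  have s7 : 128 ≤ s ^ 7 := Nat.pow_le_pow_left hs 7
  have a1 : k * (2 * s ^ 31) ≤ s * (2 * s ^ 31) := Nat.mul_le_mul_right _ hk
  have a2 : 1 * (2 * s ^ 31) ≤ k * (2 * s ^ 31) := Nat.mul_le_mul_right _ k1
  have a3 : x * (k + 1) ≤ s * (s + 1) := Nat.mul_le_mul hx (by omega)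
  have a4 : s * (s + 1) ≤ 2 * s ^ 2 := by nlinarith
  have a5 : J + 1 ≤ s ^ 2 := by nlinarith
  have a6 : (k + 1) * (J + x) ≤ (s + 1) * (s + s) := Nat.mul_le_mul (by omega) (by omega)
  refine ⟨?_, ?_, ?_, ?_⟩
  · have := p1 10 32 (by norm_num)
    calc l ≤ 4 * s ^ 32 := by rw [hl, pow_succ s 31]; nlinarith
      _ ≤ s ^ 2 * s ^ 32 := Nat.mul_le_mul_right _ s2
      _ = _ := by ring
  · have := p1 2 31 (by norm_num)
    calc _ ≤ (J + 1) * l := by rw [add_mul, one_mul]; omega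
      _ ≤ _ := Nat.mul_le_mul_right _ a5
  · rw [mul_comm, pow_mul]; exact Nat.pow_le_pow_left Nat.lt_two_pow_self.le _
  · calc _ ≤ 38 * s * (4 * s ^ 2) := Nat.mul_le_mul_left _ (by nlinarith)
      _ ≤ 2 * s ^ 3 * 128 := by nlinarith [Nat.zero_le (s ^ 3)]
      _ ≤ 2 * s ^ 3 * s ^ 7 := Nat.mul_le_mul_left _ s7
      _ = _ := by ring

end Ent

open Ent in
theorem num : NumStmt := by
  classical
  refine ⟨10, 31, fun C _ Lk J q X s ok good win hs k1 hk hJ hx hq hX hi g0 g1 kill hg hw hu j hj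
    => ?_⟩
  obtain ⟨n1, n2, n3, n4⟩ := nat_facts hs hk hJ hx rfl k1
  have hL : (X + (J * (2 * s ^ 31) + X.card) • Lk.val +
      (2 * s ^ 10) • (Multiset.range J).map q).card =
      J * (Lk.card * (2 * s ^ 31) + 2 * s ^ 10) + X.card * (Lk.card + 1) := by
    simp only [Multiset.card_add, Multiset.card_nsmul, Multiset.card_map, Multiset.card_range,
      card_val]
    ring
  have s2 : (2 : ℝ) ≤ s := by exact_mod_cast hs
  have K1 : (1 : ℝ) ≤ Lk.card := by exact_mod_cast k1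
  have K2 : (Lk.card : ℝ) ≤ s := by exact_mod_cast hk
  have X2 : (X.card : ℝ) ≤ s := by exact_mod_cast hx
  have J2 : (J : ℝ) + 1 ≤ s ^ 2 := by nlinarith [(by exact_mod_cast hJ : (J : ℝ) ≤ s)]
  obtain ⟨m, hm⟩ : ∃ m : ℕ, m = 2 * s ^ 31 := ⟨_, rfl⟩
  obtain ⟨μ, hμ⟩ : ∃ μ : ℕ, μ = 2 * s ^ 10 := ⟨_, rfl⟩
  have m1 : 1 ≤ m := hm ▸ Nat.succ_le_of_lt (by positivity)
  have u1 : 1 ≤ μ := hμ ▸ Nat.succ_le_of_lt (by positivity)
  have m2 : (m : ℝ) = 2 * s ^ 31 := by rw [hm]; push_cast; rfl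
  have u2 : (μ : ℝ) = 2 * s ^ 10 := by rw [hμ]; push_cast; rfl
  rw [← hm, ← hμ] at n1 n2 hL g1 ⊢
  rw [← hμ] at n4
  obtain ⟨l, hl⟩ : ∃ l : ℝ, l = Lk.card * m + μ := ⟨_, rfl⟩
  have l1 : l ≤ s ^ 34 := by rw [hl]; exact_mod_cast n1
  have l2 : 2 * (s : ℝ) ^ 31 ≤ l := by
    rw [hl, ← m2]; nlinarith [(Nat.cast_nonneg m : (0 : ℝ) ≤ m), (Nat.cast_nonneg μ : (0 : ℝ) ≤ μ)]
  have l0 : 0 < l := lt_of_lt_of_le (by positivity) l2
  rw [← hL] at n2
  generalize hM : X + (J * m + X.card) • Lk.val + μ • (Multiset.range J).map q = M at *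
  have L1 : (M.card : ℝ) ≤ s ^ 2 * l := by rw [hl]; exact_mod_cast n2
  obtain ⟨B, hB⟩ : ∃ B : ℝ, B = 2 ^ (38 * s) := ⟨_, rfl⟩
  have B1 : (s : ℝ) ^ 38 ≤ B := by rw [hB]; exact_mod_cast n3
  have p1 : ∀ a b : ℕ, a ≤ b → (s : ℝ) ^ a ≤ s ^ b := fun a b h => pow_le_pow_right₀ (by linarith) h
  have s4 : (16 : ℝ) ≤ s ^ 4 := by nlinarith [pow_le_pow_left₀ zero_le_two s2 4]
  have e3 : exp 1 ≤ 3 := exp_one_lt_three.le
  have r1 : (μ : ℝ) / l ≤ 1 / s ^ 21 := by
    rw [div_le_div_iff₀ l0 (by positivity), u2]; linarith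
  have x1 : X.card * (1 / (s : ℝ) ^ 37) ≤ 1 / s ^ 36 := by
    rw [mul_one_div, div_le_div_iff₀ (by positivity) (by positivity), pow_succ' _ 36, one_mul]
    gcongr
  have key := potential (fun t => ok t ∧ ¬win j t) M (Lk ∪ (range J).image q ∪ X.toFinset) ?_
    (wt Lk X (q j) (m / l) (μ / l) (1 / s ^ 37)) (ph Lk ok good (1 / s ^ 15) (1 / Lk.card))
    (1 + ((J + 1) * (μ / l) * (1 / s ^ 15) + X.card * (1 / s ^ 37))) ?_
    (fun t => ph_nonneg (by positivity) ((div_le_one (by positivity)).2 K1)) (by positivity) ?_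
  · rw [ph, ph, if_pos g0, if_pos g1, mul_one, mul_one, ← hM, prod_wt hq hX hi hj, hM] at key
    have b1 := multi (B := B) k1 m1 u1 hl (by nlinarith [p1 34 34 le_rfl, pow_pos (by linarith : (0 : ℝ) < s) 34])
    have b2 : (1 + ((J + 1) * (μ / l) * (1 / (s : ℝ) ^ 15) + X.card * (1 / s ^ 37))) ^ M.card ≤ B := by
      refine (pow_le_pow_left₀ (by positivity) ((add_comm _ _).trans_le (add_one_le_exp _)) _).trans ?_
      rw [← exp_nat_mul]
      have c1 : M.card * ((J + 1) * (μ / l) * (1 / (s : ℝ) ^ 15)) ≤ 1 :=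
        calc _ ≤ s ^ 2 * l * (s ^ 2 * (μ / l) * (1 / (s : ℝ) ^ 15)) := by gcongr
          _ = 2 / s := by rw [u2]; field_simp
          _ ≤ 1 := (div_le_one (by positivity)).2 s2
      have c2 : M.card * (X.card * (1 / (s : ℝ) ^ 37)) ≤ 1 :=
        calc _ ≤ s ^ 2 * s ^ 34 * (1 / (s : ℝ) ^ 36) := by gcongr; exact L1.trans (by gcongr)
          _ = 1 := by field_simp
      calc _ ≤ exp (1 + 1) := exp_le_exp.2 (by linarith)
        _ ≤ B := by rw [exp_add]; nlinarith [exp_pos 1, p1 4 38 (by norm_num)]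
    have b3 : (1 : ℝ) ≤ B := (one_le_pow₀ (by linarith)).trans B1
    have := fin (a := s * 2 ^ s) b3 (by positivity) (by positivity) (by positivity) (by positivity)
      (by positivity) ?_ b1 (key.trans b2) ?_ ?_ ?_
    · exact_mod_cast this
    · rw [sq]
      refine mul_le_mul ((pow_one _).symm.trans_le ((p1 1 38 (by norm_num)).trans B1)) ?_
        (by positivity) (by linarith)
      rw [hB]; exact pow_le_pow_right₀ one_le_two (by omega)
    · rw [one_div_mul_eq_div, one_le_div (by positivity)]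
      exact (p1 37 38 (by norm_num)).trans B1
    · rw [div_mul_eq_mul_div, one_le_div l0]
      exact (l1.trans ((p1 34 38 (by norm_num)).trans B1)).trans
        (le_mul_of_one_le_left (by linarith) (by exact_mod_cast m1))
    · rw [hB, ← pow_mul]; exact pow_le_pow_right₀ one_le_two n4
  · intro c hc
    rw [← hM] at hc
    simp only [Multiset.mem_add, mem_union, mem_image, mem_range, Multiset.mem_toFinset] at hc ⊢
    rcases hc with (h | h) | h
    · exact Or.inr h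
    · exact Or.inl (Or.inl (Multiset.mem_of_mem_nsmul h))
    · exact Or.inl (Or.inr (by simpa using Multiset.mem_of_mem_nsmul h))
  · intro c
    unfold wt
    split_ifs <;> positivity
  · intro t ht
    have := step hq hX hi kill hg hw hu hj (p := m / l) (r := μ / l) (γ := 1 / s ^ 37)
      (θ := 1 / s ^ 15) (κ := 1 / Lk.card) (by positivity) (by positivity) (by positivity)
      (by positivity) ((div_le_one (by positivity)).2 (one_le_pow₀ (by linarith))) (by positivity)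
      ((div_le_one (by positivity)).2 K1) (by field_simp)
      (by rw [← mul_div_assoc, ← add_div, ← hl, div_self l0.ne']) ?_ t ht
    · convert this
    · calc _ ≤ s ^ 2 * (1 / (s : ℝ) ^ 21) + 1 / s ^ 19 := by
            gcongr
            exact x1.trans (one_div_le_one_div_of_le (by positivity) (p1 19 36 (by norm_num)))
        _ = 1 / s ^ 15 * (1 / s) ^ 2 / 2 * (4 / s ^ 2) := by field_simp; ring
        _ ≤ 1 / s ^ 15 * (1 / Lk.card) ^ 2 / 2 * 1 := by
            gcongr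
            exact (div_le_one (by positivity)).2 (by nlinarith)
        _ = _ := mul_one _

end Pool.Agent.MP_f00251_lc
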