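import Pool.Agent.MP_f00251_lc.Iface2
import Pool.Agent.MP_f00251_lc.Src.Div

/-!
Completeness of the counting problem from the core reduction.
-/

set_option autoImplicit false

namespace Pool.Agent.MP_f00251_lc

open Pool.Agent.PolyT Pool.Agent.H82 N68a2faeb

theorem q1_of (hc : CoreStmt) (hs : SourceStmt) (hm : MemberStmt) :
    SharpP numOpt ∧ ∀ f : List Bool → ℕ, SharpP f →
      ∃ (g1 g2 : List Bool → List ℤ) (h : List Bool × ℕ × ℕ → ℕ),
        IsPolyTime g1 ∧ IsPolyTime g2 ∧ IsPolyTime h ∧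
        ∀ x, IsSP (g1 x) ∧ IsSP (g2 x) ∧ f x = h (x, numOpt (g1 x), numOpt (g2 x)) := by
  refine ⟨hm, fun f hf => ?_⟩
  obtain ⟨g, dec, hg, -, hc⟩ := hc
  obtain ⟨U, E, h, acc, hU, hE, hh, -, hs⟩ := hs f hf
  refine ⟨fun x => g ((U x, E x), false), fun x => g ((U x, E x), true),
    fun y => h (y.1, (2 * y.2.1 + y.2.2) / (2 * y.2.2)), (poly_iff _).1 (by fun_prop),
    (poly_iff _).1 (by fun_prop), (poly_iff _).1 (by fun_prop), fun x => ?_⟩
  obtain ⟨h1, h2, -⟩ := hs x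
  obtain ⟨a1, a2, a3, -⟩ := hc (U x) (E x) h1
  exact ⟨a1, a2, by rw [h2, a3]⟩

end Pool.Agent.MP_f00251_lc
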